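import Mathlib

set_option autoImplicit false

/-!
# Finite double centralizers do not imply perfect supportability

We construct a countable group all of whose finite subsets have finite double
centralizer, but which admits no support map making it supp-perfect.
-/

namespace Pool.Agent.Results.MP_5e2b9f_al.CountableGroup

universe u v

section Definitions

/-- `S` has finite double centralizers: `C(C(F))` is finite for every finite `F ⊆ S`. Here
`Set.centralizer T = {c | ∀ m ∈ T, m * c = c * m}`. -/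
def FiniteDoubleCentralizers (S : Type u) [Semigroup S] : Prop :=
  ∀ F : Set S, F.Finite → (Set.centralizer (Set.centralizer F)).Finite

/-- A support map on a semigroup `S` with values in the subsets of `X`. -/
structure IsSupportMap {S : Type u} [Semigroup S] {X : Type v} (supp : S → Set X) : Prop where
  supp_mul : ∀ f g : S, supp (f * g) ⊆ supp f ∪ supp g
  comm_of_disjoint : ∀ f g : S, supp f ∩ supp g = ∅ → f * g = g * f

/-- The union `X_S` of all supports. -/
def suppUnion {S : Type u} {X : Type v} (supp : S → Set X) : Set X := ⋃ f : S, supp f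

/-- `S(A) = {f ∈ S : supp f ⊆ A}`. -/
def supportedIn {S : Type u} {X : Type v} (supp : S → Set X) (A : Set X) : Set S :=
  {f : S | supp f ⊆ A}

/-- The pair `(S, supp)` is supp-perfect. -/
structure IsSuppPerfect {S : Type u} [Semigroup S] {X : Type v} (supp : S → Set X) : Prop where
  isSupportMap : IsSupportMap supp
  finite_supp : ∀ f : S, (supp f).Finite
  finite_supportedIn : ∀ F : Set X, F ⊆ suppUnion supp → F.Finite →
    (supportedIn supp F).Finite
  eq_centralizer : ∀ F : Set X, F ⊆ suppUnion supp → F.Finite →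
    supportedIn supp F = Set.centralizer (supportedIn supp (suppUnion supp \ F))

/-- A semigroup is perfectly supportable if it admits a support map (with values in the subsets
of some set `X`) making it supp-perfect. -/
def PerfectlySupportable (S : Type u) [Semigroup S] : Prop :=
  ∃ (X : Type v) (supp : S → Set X), IsSuppPerfect supp

end Definitions

section Gadget

/-- The properties of the finite gadget group that are used. -/
structure Gadget (Q : Type) [Group Q] (sgn : Q →* ℤˣ) (z0 : Q) : Prop where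
  z0_comm : ∀ q : Q, q * z0 = z0 * q ↔ sgn q = 1
  z0_even : sgn z0 = 1
  center_triv : ∀ q : Q, (∀ r : Q, q * r = r * q) → q = 1
  abel : ∀ a b c : Q, sgn a = -1 → a * b = b * a → a * c = c * a → b * c = c * b
  comm_even : ∀ a : Q, sgn a = -1 → ∃ k : Q, sgn k = 1 ∧ k ≠ 1 ∧ a * k = k * a
  exists_odd : ∃ a : Q, sgn a = -1

variable {Q : Type} [Group Q] (sgn : Q →* ℤˣ)

/-- The group of pairs of finitely supported sequences `(u, w)` in `Q` such that
`sgn (w n) = sgn (u n) * sgn (u (n+1))`. -/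
def bigGroup : Subgroup (ℕ → Q × Q) where
  carrier := {g | (∃ N : ℕ, ∀ n, N ≤ n → g n = 1) ∧
    ∀ n, sgn (g n).2 = sgn (g n).1 * sgn (g (n + 1)).1}
  one_mem' := ⟨⟨0, fun n _ => rfl⟩, fun n => by simp⟩
  mul_mem' := by
    rintro a b ⟨⟨N, hN⟩, ha⟩ ⟨⟨M, hM⟩, hb⟩
    refine ⟨⟨max N M, fun n hn => ?_⟩, fun n => ?_⟩
    · rw [Pi.mul_apply, hN n (le_trans (le_max_left _ _) hn),
        hM n (le_trans (le_max_right _ _) hn), one_mul]
    · simp only [Pi.mul_apply, Prod.fst_mul, Prod.snd_mul, map_mul, ha n, hb n]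
      exact mul_mul_mul_comm _ _ _ _
  inv_mem' := by
    rintro a ⟨⟨N, hN⟩, ha⟩
    refine ⟨⟨N, fun n hn => ?_⟩, fun n => ?_⟩
    · rw [Pi.inv_apply, hN n hn, inv_one]
    · simp only [Pi.inv_apply, Prod.fst_inv, Prod.snd_inv, map_inv, ha n, mul_inv]

end Gadget

section Abstract

variable {Q : Type} [Group Q] {sgn : Q →* ℤˣ} {z0 : Q}
variable {G : Type u} [Group G] {X : Type v} {supp : G → Set X}

/-- `x ∈ supp k` and `x ∉ F` give an element supported off `F` not commuting with `k`. -/
theorem exists_not_comm (hs : IsSuppPerfect supp) {k : G} {x : X} (hx : x ∈ supp k)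
    {F : Set X} (hF : F.Finite) (hxF : x ∉ F) :
    ∃ g ∈ supportedIn supp (suppUnion supp \ F), g * k ≠ k * g := by
  by_contra hcon
  push Not at hcon
  have hF' : (F ∩ suppUnion supp).Finite := hF.inter_of_left _
  have h1 := hs.eq_centralizer (F ∩ suppUnion supp) Set.inter_subset_right hF'
  have h2 : suppUnion supp \ (F ∩ suppUnion supp) = suppUnion supp \ F := by
    ext y; simp only [Set.mem_sdiff, Set.mem_inter_iff]; tauto
  rw [h2] at h1
  have h3 : k ∈ supportedIn supp (F ∩ suppUnion supp) := by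
    rw [h1, Set.mem_centralizer_iff]
    exact hcon
  exact hxF (h3 hx).1

/-- The elements of `Q` that are seen arbitrarily close to the point `x`. -/
def germ (supp : G → Set X) (π : G →* Q) (x : X) : Set Q :=
  {q | ∀ F : Set X, F.Finite → x ∉ F → ∃ g ∈ supportedIn supp (suppUnion supp \ F), π g = q}

theorem germ_comm (hs : IsSuppPerfect supp) (π : G →* Q) {x y : X} (hxy : x ≠ y) {q r : Q}
    (hq : q ∈ germ supp π x) (hr : r ∈ germ supp π y) : q * r = r * q := by
  obtain ⟨g, hg, rfl⟩ := hq {y} (Set.finite_singleton y) (by simpa using hxy)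
  have hy : y ∉ supp g := fun h => (hg h).2 rfl
  obtain ⟨h, hh, rfl⟩ := hr (supp g) (hs.finite_supp g) hy
  have hd : supp g ∩ supp h = ∅ := by
    ext z
    simp only [Set.mem_inter_iff, Set.mem_empty_iff_false, iff_false, not_and]
    intro hz hz'
    exact (hh hz').2 hz
  rw [← map_mul, ← map_mul, hs.isSupportMap.comm_of_disjoint g h hd]

theorem exists_germ_not_comm [Finite Q] (hs : IsSuppPerfect supp) (π : G →* Q) {k : Q} {κ : G}
    (hκ : ∀ g : G, g * κ = κ * g ↔ π g * k = k * π g) {x : X} (hx : x ∈ supp κ) :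
    ∃ q ∈ germ supp π x, q * k ≠ k * q := by
  classical
  by_contra hcon
  push Not at hcon
  have h1 : ∀ q : Q, ∃ F : Set X, F.Finite ∧ x ∉ F ∧
      (q * k ≠ k * q → ∀ g ∈ supportedIn supp (suppUnion supp \ F), π g ≠ q) := by
    intro q
    by_cases hq : q ∈ germ supp π x
    · exact ⟨∅, Set.finite_empty, by simp, fun h => absurd (hcon q hq) h⟩
    · simp only [germ, Set.mem_ofPred_eq, not_forall] at hq
      obtain ⟨F, hF, hxF, hne⟩ := hq
      refine ⟨F, hF, hxF, fun _ g hg hgq => hne ⟨g, hg, hgq⟩⟩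
  choose F hF hxF hFq using h1
  obtain ⟨g, hg, hgk⟩ := exists_not_comm hs hx (Set.finite_iUnion hF)
    (by simpa using hxF)
  have hgk' : π g * k ≠ k * π g := fun h => hgk ((hκ g).2 h)
  refine hFq (π g) hgk' g ?_ rfl
  intro y hy
  exact ⟨(hg hy).1, fun hyF => (hg hy).2 (Set.mem_iUnion.2 ⟨π g, hyF⟩)⟩

theorem supp_nonempty (hs : IsSuppPerfect supp) {k : G} (hk : ∃ g : G, g * k ≠ k * g) :
    (supp k).Nonempty := by
  by_contra hne
  rw [Set.not_nonempty_iff_eq_empty] at hne
  obtain ⟨g, hg⟩ := hk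
  exact hg (hs.isSupportMap.comm_of_disjoint g k (by rw [hne, Set.inter_empty]))

/-- The key lemma: the element `κ z0` is supported at exactly one point. -/
theorem supp_z0_singleton [Finite Q] (hQ : Gadget Q sgn z0) (hs : IsSuppPerfect supp)
    (π : G →* Q) (hπ : Function.Surjective π) (κ : Q → G)
    (hκ : ∀ k : Q, sgn k = 1 → ∀ g : G, g * κ k = κ k * g ↔ π g * k = k * π g) :
    ∃ x : X, supp (κ z0) = {x} := by
  have hT3 : ∀ k : Q, sgn k = 1 → k ≠ 1 → ∃ x : X, ∃ q ∈ germ supp π x, q * k ≠ k * q := by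
    intro k hk hk1
    have h1 : ∃ r : Q, k * r ≠ r * k := by
      by_contra hcon
      push Not at hcon
      exact hk1 (hQ.center_triv k hcon)
    obtain ⟨r, hr⟩ := h1
    obtain ⟨g, rfl⟩ := hπ r
    obtain ⟨x, hx⟩ := supp_nonempty (k := κ k) hs ⟨g, fun h => hr ((hκ k hk g).1 h).symm⟩
    exact ⟨x, exists_germ_not_comm hs π (hκ k hk) hx⟩
  obtain ⟨a0, ha0⟩ := hQ.exists_odd
  obtain ⟨g0, hg0⟩ := hπ a0
  have hne : (supp (κ z0)).Nonempty := by
    refine supp_nonempty hs ⟨g0, fun h => ?_⟩
    rw [hκ z0 hQ.z0_even g0, hg0, hQ.z0_comm a0, ha0] at h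
    exact absurd h (by decide)
  obtain ⟨x, hx⟩ := hne
  refine ⟨x, Set.Subset.antisymm ?_ (Set.singleton_subset_iff.2 hx)⟩
  intro y hy
  by_contra hyx
  have hyx : x ≠ y := fun h => hyx (by simp [h])
  have hodd : ∀ {z : X}, z ∈ supp (κ z0) → ∃ q ∈ germ supp π z, sgn q = -1 := by
    intro z hz
    obtain ⟨q, hq, hqk⟩ := exists_germ_not_comm hs π (hκ z0 hQ.z0_even) hz
    refine ⟨q, hq, ?_⟩
    rcases Int.units_eq_one_or (sgn q) with h | h
    · exact absurd ((hQ.z0_comm q).2 h) hqk
    · exact h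
  obtain ⟨a, haT, ha⟩ := hodd hx
  obtain ⟨b, hbT, hb⟩ := hodd hy
  have hab : a * b = b * a := germ_comm hs π hyx haT hbT
  have hall : ∀ z : X, ∀ q ∈ germ supp π z, a * q = q * a := by
    intro z q hq
    by_cases hzx : z = x
    · subst hzx
      have h1 : q * b = b * q := germ_comm hs π hyx hq hbT
      exact hQ.abel b a q hb hab.symm h1.symm
    · exact (germ_comm hs π hzx hq haT).symm
  obtain ⟨k, hk, hk1, hak⟩ := hQ.comm_even a ha
  obtain ⟨z, q, hq, hqk⟩ := hT3 k hk hk1
  exact hqk (hQ.abel a q k ha (hall z q hq) hak)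

/-- A finite set `F` contains the point of `κ z0` iff everything supported off `F` is even. -/
theorem mem_iff_even (hQ : Gadget Q sgn z0) (hs : IsSuppPerfect supp)
    (π : G →* Q) (κ : G) (hκ : ∀ g : G, g * κ = κ * g ↔ π g * z0 = z0 * π g)
    {x : X} (hx : supp κ = {x}) {F : Set X} (hF : F.Finite) :
    x ∈ F ↔ ∀ g ∈ supportedIn supp (suppUnion supp \ F), sgn (π g) = 1 := by
  constructor
  · intro hxF g hg
    rw [← hQ.z0_comm, ← hκ]
    apply hs.isSupportMap.comm_of_disjoint
    rw [hx]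
    ext y
    simp only [Set.mem_inter_iff, Set.mem_singleton_iff, Set.mem_empty_iff_false, iff_false,
      not_and]
    intro hy hyx
    subst hyx
    exact (hg hy).2 hxF
  · intro h
    by_contra hxF
    obtain ⟨g, hg, hgk⟩ := exists_not_comm (k := κ) hs (by rw [hx]; rfl) hF hxF
    exact hgk ((hκ g).2 ((hQ.z0_comm _).2 (h g hg)))

/-- Three coordinates whose signs multiply to `1` have the same point. -/
theorem point_eq (hQ : Gadget Q sgn z0) (hs : IsSuppPerfect supp)
    (π₁ π₂ π₃ : G →* Q) (κ₁ κ₂ κ₃ : G)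
    (h₁ : ∀ g : G, g * κ₁ = κ₁ * g ↔ π₁ g * z0 = z0 * π₁ g)
    (h₂ : ∀ g : G, g * κ₂ = κ₂ * g ↔ π₂ g * z0 = z0 * π₂ g)
    (h₃ : ∀ g : G, g * κ₃ = κ₃ * g ↔ π₃ g * z0 = z0 * π₃ g)
    (hsgn : ∀ g : G, sgn (π₃ g) = sgn (π₁ g) * sgn (π₂ g))
    {x₁ x₂ x₃ : X} (hx₁ : supp κ₁ = {x₁}) (hx₂ : supp κ₂ = {x₂}) (hx₃ : supp κ₃ = {x₃}) :
    x₁ = x₂ := by
  have e1 := fun (F : Set X) (hF : F.Finite) => mem_iff_even hQ hs π₁ κ₁ h₁ hx₁ hF
  have e2 := fun (F : Set X) (hF : F.Finite) => mem_iff_even hQ hs π₂ κ₂ h₂ hx₂ hF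
  have e3 := fun (F : Set X) (hF : F.Finite) => mem_iff_even hQ hs π₃ κ₃ h₃ hx₃ hF
  have k3 : x₃ ∈ ({x₁, x₂} : Set X) := by
    have hfin : ({x₁, x₂} : Set X).Finite := Set.toFinite _
    rw [e3 _ hfin]
    intro g hg
    rw [hsgn, (e1 _ hfin).1 (by simp) g hg, (e2 _ hfin).1 (by simp) g hg, one_mul]
  have k1 : x₁ ∈ ({x₂, x₃} : Set X) := by
    have hfin : ({x₂, x₃} : Set X).Finite := Set.toFinite _
    rw [e1 _ hfin]
    intro g hg
    have := hsgn g
    rw [(e3 _ hfin).1 (by simp) g hg, (e2 _ hfin).1 (by simp) g hg, mul_one] at this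
    exact this.symm
  have k2 : x₂ ∈ ({x₁, x₃} : Set X) := by
    have hfin : ({x₁, x₃} : Set X).Finite := Set.toFinite _
    rw [e2 _ hfin]
    intro g hg
    have := hsgn g
    rw [(e3 _ hfin).1 (by simp) g hg, (e1 _ hfin).1 (by simp) g hg, one_mul] at this
    exact this.symm
  simp only [Set.mem_insert_iff, Set.mem_singleton_iff] at k1 k2 k3
  rcases k1 with h | h
  · exact h
  · rcases k2 with h' | h'
    · exact h'.symm
    · rw [h, h']

end Abstract

section BigGroup

variable {Q : Type} [Group Q] (sgn : Q →* ℤˣ)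

/-- An element of `bigGroup` with prescribed `n`-th entry. -/
def elt (n : ℕ) (a b c : Q) (hab : sgn b = sgn a) (hca : sgn c = sgn a) : bigGroup sgn :=
  ⟨fun m => if m = n then (a, b) else if m + 1 = n then (1, c) else 1, by
    refine ⟨⟨n + 1, fun m hm => ?_⟩, fun m => ?_⟩
    · beta_reduce
      rw [if_neg (by omega), if_neg (by omega)]
    · beta_reduce
      by_cases h1 : m = n
      · rw [if_pos h1, if_neg (by omega : ¬ m + 1 = n), if_neg (by omega : ¬ m + 1 + 1 = n)]
        simp [hab]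
      · by_cases h2 : m + 1 = n
        · rw [if_neg h1, if_pos h2, if_pos h2]
          simp [hca]
        · rw [if_neg h1, if_neg h2, if_neg h2]
          by_cases h3 : m + 1 + 1 = n
          · rw [if_pos h3]; simp
          · rw [if_neg h3]; simp⟩

theorem elt_apply (n : ℕ) (a b c : Q) (hab : sgn b = sgn a) (hca : sgn c = sgn a) (m : ℕ) :
    (elt sgn n a b c hab hca).1 m = if m = n then (a, b) else if m + 1 = n then (1, c) else 1 :=
  rfl

/-- The `n`-th vertex coordinate. -/
def projU (n : ℕ) : bigGroup sgn →* Q :=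
  (MonoidHom.fst Q Q).comp ((Pi.evalMonoidHom (fun _ : ℕ => Q × Q) n).comp (bigGroup sgn).subtype)

/-- The `n`-th edge coordinate. -/
def projW (n : ℕ) : bigGroup sgn →* Q :=
  (MonoidHom.snd Q Q).comp ((Pi.evalMonoidHom (fun _ : ℕ => Q × Q) n).comp (bigGroup sgn).subtype)

theorem projU_apply (n : ℕ) (g : bigGroup sgn) : projU sgn n g = (g.1 n).1 := rfl

theorem projW_apply (n : ℕ) (g : bigGroup sgn) : projW sgn n g = (g.1 n).2 := rfl

theorem sgn_projW (n : ℕ) (g : bigGroup sgn) :
    sgn (projW sgn n g) = sgn (projU sgn n g) * sgn (projU sgn (n + 1) g) := g.2.2 n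

theorem bigGroup_ext {g h : bigGroup sgn} (hgh : ∀ n, g.1 n = h.1 n) : g = h :=
  Subtype.ext (funext hgh)

/-- Elements of `bigGroup` commute iff they commute at each place. -/
theorem comm_iff (g h : bigGroup sgn) : g * h = h * g ↔
    ∀ n, g.1 n * h.1 n = h.1 n * g.1 n := by
  constructor
  · intro H n
    have := congrArg (fun x : bigGroup sgn => x.1 n) H
    exact this
  · intro H
    exact bigGroup_ext sgn H

/-- Choice of an element of the same sign as `q`, equal to `1` for even `q`. -/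
theorem exists_section {z0 : Q} (hQ : Gadget Q sgn z0) :
    ∃ s : Q → Q, (∀ q, sgn (s q) = sgn q) ∧ ∀ q, sgn q = 1 → s q = 1 := by
  classical
  obtain ⟨a, ha⟩ := hQ.exists_odd
  refine ⟨fun q => if sgn q = 1 then 1 else a, fun q => ?_, fun q hq => if_pos hq⟩
  rcases Int.units_eq_one_or (sgn q) with h | h
  · simp [h]
  · have h' : sgn q ≠ 1 := by rw [h]; decide
    beta_reduce
    rw [if_neg h', ha, h]

/-- The finite set of elements trivial from `M` on. -/
theorem finite_trunc [Finite Q] (M : ℕ) :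
    {h : bigGroup sgn | ∀ n, M ≤ n → h.1 n = 1}.Finite := by
  refine Set.Finite.of_injOn (f := fun (h : bigGroup sgn) (i : Fin M) => h.1 i)
    (t := Set.univ) (Set.mapsTo_univ _ _) ?_ Set.finite_univ
  intro g hg h hh hgh
  refine bigGroup_ext sgn fun n => ?_
  by_cases hn : n < M
  · exact congrFun hgh ⟨n, hn⟩
  · rw [hg n (by omega), hh n (by omega)]

theorem countable_bigGroup [Finite Q] : Countable (bigGroup sgn) := by
  rw [← Set.countable_univ_iff]
  have h : (Set.univ : Set (bigGroup sgn)) ⊆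
      ⋃ M : ℕ, {h : bigGroup sgn | ∀ n, M ≤ n → h.1 n = 1} := by
    intro g _
    obtain ⟨N, hN⟩ := g.2.1
    exact Set.mem_iUnion.2 ⟨N, hN⟩
  exact (Set.countable_iUnion fun M => (finite_trunc sgn M).countable).mono h

theorem finiteDoubleCentralizers_bigGroup [Finite Q] {z0 : Q} (hQ : Gadget Q sgn z0) :
    FiniteDoubleCentralizers (bigGroup sgn) := by
  intro F hF
  obtain ⟨s, hs, -⟩ := exists_section sgn hQ
  have hN : ∃ N : ℕ, ∀ g ∈ F, ∀ n, N ≤ n → g.1 n = 1 := by
    choose N hN using fun g : bigGroup sgn => g.2.1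
    obtain ⟨M, hM⟩ := (hF.image N).bddAbove
    refine ⟨M, fun g hg n hn => hN g n (le_trans (hM ⟨g, hg, rfl⟩) hn)⟩
  obtain ⟨N, hN⟩ := hN
  refine (finite_trunc sgn (N + 1)).subset ?_
  intro h hh n hn
  have key : ∀ a b c : Q, ∀ hab : sgn b = sgn a, ∀ hca : sgn c = sgn a,
      (a, b) * h.1 n = h.1 n * (a, b) := by
    intro a b c hab hca
    have hC : elt sgn n a b c hab hca ∈ Set.centralizer F := by
      rw [Set.mem_centralizer_iff]
      intro g hg
      rw [comm_iff]
      intro m
      by_cases hm : N ≤ m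
      · rw [hN g hg m hm, one_mul, mul_one]
      · rw [elt_apply, if_neg (by omega), if_neg (by omega), one_mul, mul_one]
    have := (comm_iff sgn _ _).1 (Set.mem_centralizer_iff.1 hh _ hC) n
    rwa [elt_apply, if_pos rfl] at this
  have h1 : (h.1 n).1 = 1 := by
    refine hQ.center_triv _ fun r => ?_
    exact (congrArg Prod.fst (key r (s r) (s r) (hs r) (hs r))).symm
  have h2 : (h.1 n).2 = 1 := by
    refine hQ.center_triv _ fun r => ?_
    exact (congrArg Prod.snd (key (s r) r (s r) (hs r).symm rfl)).symm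
  exact Prod.ext h1 h2

theorem surjective_projU {z0 : Q} (hQ : Gadget Q sgn z0) (n : ℕ) :
    Function.Surjective (projU sgn n) := by
  intro q
  obtain ⟨s, hs, -⟩ := exists_section sgn hQ
  refine ⟨elt sgn n q (s q) (s q) (hs q) (hs q), ?_⟩
  rw [projU_apply, elt_apply, if_pos rfl]

theorem surjective_projW {z0 : Q} (hQ : Gadget Q sgn z0) (n : ℕ) :
    Function.Surjective (projW sgn n) := by
  intro q
  obtain ⟨s, hs, -⟩ := exists_section sgn hQ
  refine ⟨elt sgn n (s q) q (s q) (hs q).symm rfl, ?_⟩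
  rw [projW_apply, elt_apply, if_pos rfl]

open Classical in
/-- The element of `bigGroup` with vertex entry `k` at `n` and trivial otherwise (`k` even). -/
noncomputable def kapU (n : ℕ) (k : Q) : bigGroup sgn :=
  if h : sgn k = 1 then elt sgn n k 1 1 (by rw [h, map_one]) (by rw [h, map_one]) else 1

open Classical in
/-- The element of `bigGroup` with edge entry `k` at `n` and trivial otherwise (`k` even). -/
noncomputable def kapW (n : ℕ) (k : Q) : bigGroup sgn :=
  if h : sgn k = 1 then elt sgn n 1 k 1 (by rw [h, map_one]) rfl else 1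

theorem kapU_apply (n : ℕ) {k : Q} (hk : sgn k = 1) (m : ℕ) :
    (kapU sgn n k).1 m = if m = n then (k, 1) else 1 := by
  rw [kapU, dif_pos hk, elt_apply]
  split_ifs <;> rfl

theorem kapW_apply (n : ℕ) {k : Q} (hk : sgn k = 1) (m : ℕ) :
    (kapW sgn n k).1 m = if m = n then (1, k) else 1 := by
  rw [kapW, dif_pos hk, elt_apply]
  split_ifs <;> rfl

theorem kapU_comm (n : ℕ) (k : Q) (hk : sgn k = 1) (g : bigGroup sgn) :
    g * kapU sgn n k = kapU sgn n k * g ↔ projU sgn n g * k = k * projU sgn n g := by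
  rw [comm_iff]
  constructor
  · intro h
    have := h n
    rw [kapU_apply sgn n hk, if_pos rfl] at this
    exact congrArg Prod.fst this
  · intro h m
    rw [kapU_apply sgn n hk]
    by_cases hm : m = n
    · subst hm
      rw [if_pos rfl]
      refine Prod.ext h ?_
      simp
    · rw [if_neg hm, one_mul, mul_one]

theorem kapW_comm (n : ℕ) (k : Q) (hk : sgn k = 1) (g : bigGroup sgn) :
    g * kapW sgn n k = kapW sgn n k * g ↔ projW sgn n g * k = k * projW sgn n g := by
  rw [comm_iff]
  constructor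
  · intro h
    have := h n
    rw [kapW_apply sgn n hk, if_pos rfl] at this
    exact congrArg Prod.snd this
  · intro h m
    rw [kapW_apply sgn n hk]
    by_cases hm : m = n
    · subst hm
      rw [if_pos rfl]
      refine Prod.ext ?_ h
      simp
    · rw [if_neg hm, one_mul, mul_one]

theorem not_perfectlySupportable_bigGroup [Finite Q] {z0 : Q} (hQ : Gadget Q sgn z0) :
    ¬ PerfectlySupportable.{0, v} (bigGroup sgn) := by
  rintro ⟨X, supp, hs⟩
  have hU : ∀ n : ℕ, ∃ x : X, supp (kapU sgn n z0) = {x} := fun n =>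
    supp_z0_singleton hQ hs (projU sgn n) (surjective_projU sgn hQ n) (kapU sgn n)
      (fun k hk g => kapU_comm sgn n k hk g)
  have hW : ∀ n : ℕ, ∃ x : X, supp (kapW sgn n z0) = {x} := fun n =>
    supp_z0_singleton hQ hs (projW sgn n) (surjective_projW sgn hQ n) (kapW sgn n)
      (fun k hk g => kapW_comm sgn n k hk g)
  choose x hx using hU
  choose y hy using hW
  have hstep : ∀ n : ℕ, x n = x (n + 1) := fun n =>
    point_eq hQ hs (projU sgn n) (projU sgn (n + 1)) (projW sgn n)
      (kapU sgn n z0) (kapU sgn (n + 1) z0) (kapW sgn n z0)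
      (kapU_comm sgn n z0 hQ.z0_even) (kapU_comm sgn (n + 1) z0 hQ.z0_even)
      (kapW_comm sgn n z0 hQ.z0_even) (sgn_projW sgn n) (hx n) (hx (n + 1)) (hy n)
  have hall : ∀ n : ℕ, x n = x 0 := by
    intro n
    induction n with
    | zero => rfl
    | succ n ih => rw [← hstep n, ih]
  have hsub : ({x 0} : Set X) ⊆ suppUnion supp := by
    rw [← hx 0]
    exact Set.subset_iUnion supp _
  have hfin := hs.finite_supportedIn {x 0} hsub (Set.finite_singleton _)
  have hz0 : z0 ≠ 1 := by
    rintro rfl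
    obtain ⟨a, ha⟩ := hQ.exists_odd
    have := (hQ.z0_comm a).1 (by rw [one_mul, mul_one])
    rw [ha] at this
    exact absurd this (by decide)
  have hinj : Function.Injective (fun n : ℕ => kapU sgn n z0) := by
    intro n m hnm
    by_contra hne
    have h1 := congrArg (fun g : bigGroup sgn => (g.1 n).1) hnm
    simp only [kapU_apply sgn _ hQ.z0_even, if_neg hne, if_true] at h1
    exact hz0 h1
  have hmem : Set.range (fun n : ℕ => kapU sgn n z0) ⊆ supportedIn supp {x 0} := by
    rintro _ ⟨n, rfl⟩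
    change supp (kapU sgn n z0) ⊆ {x 0}
    rw [hx n, hall n]
  exact Set.infinite_range_of_injective hinj (hfin.subset hmem)

end BigGroup

section Instance

open Equiv

/-- The gadget group `S₃ ×_{C₂} S₄`. -/
def gad : Subgroup (Perm (Fin 3) × Perm (Fin 4)) :=
  MonoidHom.eqLocus (Perm.sign.comp (MonoidHom.fst (Perm (Fin 3)) (Perm (Fin 4))))
    (Perm.sign.comp (MonoidHom.snd (Perm (Fin 3)) (Perm (Fin 4))))

/-- The sign on the gadget group. -/
def gsgn : gad →* ℤˣ :=
  Perm.sign.comp ((MonoidHom.fst (Perm (Fin 3)) (Perm (Fin 4))).comp gad.subtype)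

theorem s3_comm : ∀ q : Perm (Fin 3), q * finRotate 3 = finRotate 3 * q ↔ Perm.sign q = 1 := by
  decide +kernel

theorem s3_center : ∀ q : Perm (Fin 3), (∀ r : Perm (Fin 3), q * r = r * q) → q = 1 := by
  decide +kernel

theorem s4_center : ∀ q : Perm (Fin 4), (∀ r : Perm (Fin 4), q * r = r * q) → q = 1 := by
  decide +kernel

theorem s3_abel : ∀ a b c : Perm (Fin 3), Perm.sign a = -1 → a * b = b * a → a * c = c * a →
    b * c = c * b := by
  decide +kernel

theorem s4_abel : ∀ a : Perm (Fin 4), Perm.sign a = -1 → ∀ b : Perm (Fin 4), a * b = b * a →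
    ∀ c : Perm (Fin 4), a * c = c * a → b * c = c * b := by
  decide +kernel

theorem s4_even : ∀ a : Perm (Fin 4), Perm.sign a = -1 → ∃ k : Perm (Fin 4),
    Perm.sign k = 1 ∧ k ≠ 1 ∧ a * k = k * a := by
  decide +kernel

/-- The distinguished element of order three. -/
def gz : gad := ⟨(finRotate 3, 1), by
  change Perm.sign (finRotate 3) = Perm.sign (1 : Perm (Fin 4)); decide +kernel⟩

theorem gad_comm_iff (p q : gad) : p * q = q * p ↔
    p.1.1 * q.1.1 = q.1.1 * p.1.1 ∧ p.1.2 * q.1.2 = q.1.2 * p.1.2 := by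
  rw [Subtype.ext_iff, Prod.ext_iff]; rfl

theorem gsgn_fst (p : gad) : gsgn p = Perm.sign p.1.1 := rfl

theorem gsgn_snd (p : gad) : gsgn p = Perm.sign p.1.2 := p.2

theorem exists_fst (r : Perm (Fin 4)) : ∃ s : Perm (Fin 3), Perm.sign s = Perm.sign r := by
  rcases Int.units_eq_one_or (Perm.sign r) with h | h
  · exact ⟨1, by rw [h, Perm.sign_one]⟩
  · exact ⟨swap 0 1, by rw [h]; decide +kernel⟩

theorem exists_snd (r : Perm (Fin 3)) : ∃ s : Perm (Fin 4), Perm.sign r = Perm.sign s := by
  rcases Int.units_eq_one_or (Perm.sign r) with h | h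
  · exact ⟨1, by rw [h, Perm.sign_one]⟩
  · exact ⟨swap 0 1, by rw [h]; decide +kernel⟩

theorem gadget_gad : Gadget gad gsgn gz where
  z0_comm q := by
    rw [gad_comm_iff, gsgn_fst]
    change _ ∧ q.1.2 * 1 = 1 * q.1.2 ↔ _
    rw [one_mul, mul_one, and_iff_left rfl]
    exact s3_comm q.1.1
  z0_even := by
    rw [gsgn_snd]; exact Perm.sign_one
  center_triv q hq := by
    have h1 : q.1.1 = 1 := by
      refine s3_center _ fun r => ?_
      obtain ⟨s, hs⟩ := exists_snd r
      exact ((gad_comm_iff _ _).1 (hq ⟨(r, s), hs⟩)).1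
    have h2 : q.1.2 = 1 := by
      refine s4_center _ fun r => ?_
      obtain ⟨s, hs⟩ := exists_fst r
      exact ((gad_comm_iff _ _).1 (hq ⟨(s, r), hs⟩)).2
    exact Subtype.ext (Prod.ext h1 h2)
  abel a b c ha hb hc := by
    rw [gad_comm_iff] at hb hc ⊢
    exact ⟨s3_abel _ _ _ ha hb.1 hc.1, s4_abel _ (by rw [← gsgn_snd]; exact ha) _ hb.2 _ hc.2⟩
  comm_even a ha := by
    obtain ⟨k, hk, hk1, hak⟩ := s4_even a.1.2 (by rw [← gsgn_snd]; exact ha)
    refine ⟨⟨(1, k), by change Perm.sign (1 : Perm (Fin 3)) = Perm.sign k; rw [hk]; rfl⟩,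
      ?_, ?_, ?_⟩
    · rw [gsgn_snd]; exact hk
    · intro h
      exact hk1 (congrArg (fun p : gad => p.1.2) h)
    · rw [gad_comm_iff]
      exact ⟨by rw [mul_one, one_mul], hak⟩
  exists_odd := by
    refine ⟨⟨(swap 0 1, swap 0 1), by
      change Perm.sign (swap 0 1 : Perm (Fin 3)) = Perm.sign (swap 0 1 : Perm (Fin 4))
      decide +kernel⟩, ?_⟩
    rw [gsgn_fst]
    change Perm.sign (swap 0 1 : Perm (Fin 3)) = -1
    decide +kernel

end Instance

/-- There is a countable group with finite double centralizers that is not perfectly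
supportable. -/
theorem result : ∃ (G : Type) (_ : Group G), Countable G ∧ FiniteDoubleCentralizers G ∧
    ¬ PerfectlySupportable.{0, v} G := by
  have : Finite gad := inferInstance
  exact ⟨bigGroup gsgn, inferInstance, countable_bigGroup gsgn,
    finiteDoubleCentralizers_bigGroup gsgn gadget_gad,
    not_perfectlySupportable_bigGroup gsgn gadget_gad⟩

end Pool.Agent.Results.MP_5e2b9f_al.CountableGroup
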